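import Pool.Agent.Helper74.RN.St

set_option autoImplicit false

/-!
# Project RN, module INS (helper10): insertion of an unmatched letter
-/

namespace Pool.Agent.Helper10.RN

open Pool.Agent.Helper74 Pool.Agent.Helper74.RN

theorem hINS : Pool.Agent.Helper74.RN.StINS := by
  intro G R u v x k h
  generalize hz : u ++ v = z at h
  induction h generalizing u v with
  | nil =>
    obtain ⟨rfl, rfl⟩ := List.append_eq_nil_iff.1 hz
    exact Fo.skip x [] 0 Fo.nil
  | skip y w k h ih =>
    rcases u with _ | ⟨a, u'⟩
    · rw [List.nil_append] at hz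
      subst hz
      exact Fo.skip x _ _ (Fo.skip y w k h)
    · rw [List.cons_append, List.cons.injEq] at hz
      obtain ⟨rfl, hz⟩ := hz
      exact Fo.skip _ _ _ (ih u' v hz)
  | wrap y y' p q i j hR hp hq ihp ihq =>
    rcases u with _ | ⟨a, u'⟩
    · rw [List.nil_append] at hz
      subst hz
      exact Fo.skip x _ _ (Fo.wrap y y' p q i j hR hp hq)
    · rw [List.cons_append, List.cons.injEq] at hz
      obtain ⟨rfl, hz⟩ := hz
      rcases List.append_eq_append_iff.1 hz with ⟨a', h1, h2⟩ | ⟨c', h1, h2⟩
      · have h3 := Fo.wrap a y' (u' ++ x :: a') q (i + 1) j hR (ihp u' a' h1.symm) hq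
        have e1 : a :: u' ++ x :: v = a :: ((u' ++ x :: a') ++ y' :: q) := by
          rw [h2]
          simp
        have e2 : i + j + 1 = i + 1 + j := by omega
        rw [e1, e2]
        exact h3
      · rcases c' with _ | ⟨b, c''⟩
        · rw [List.append_nil] at h1
          rw [List.nil_append] at h2
          have h3 := Fo.wrap a y' (p ++ [x]) q (i + 1) j hR (ihp p [] (List.append_nil p)) hq
          have e1 : a :: u' ++ x :: v = a :: ((p ++ [x]) ++ y' :: q) := by
            rw [← h2, h1]
            simp
          have e2 : i + j + 1 = i + 1 + j := by omega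
          rw [e1, e2]
          exact h3
        · rw [List.cons_append, List.cons.injEq] at h2
          obtain ⟨rfl, h2⟩ := h2
          have h3 := Fo.wrap a y' p (c'' ++ x :: v) i (j + 1) hR hp (ihq c'' v h2.symm)
          have e1 : a :: u' ++ x :: v = a :: (p ++ y' :: (c'' ++ x :: v)) := by
            rw [h1]
            simp
          rw [e1]
          exact h3

end Pool.Agent.Helper10.RN
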